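import Pool.Agent.helper36.PT.Spec

/-! # Project PT (MP_ad8ced_nt): row CAU -/

set_option autoImplicit false

namespace Pool.Agent.PT

open Finset Pool.Agent.helper71.AA

theorem CAU : CAU_stmt := by
  intro ι _ S T J β u hβ
  set G : ℕ → ℕ → ℂ := fun d e => ∑ i ∈ J, u d e i with hG
  have h1 : ‖∑ d ∈ S, ∑ e ∈ T, (β e : ℂ) * ∑ i ∈ J, u d e i‖ ≤ ∑ x ∈ S ×ˢ T, 1 * ‖G x.1 x.2‖ := by
    rw [Finset.sum_product]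
    refine (norm_sum_le _ _).trans (Finset.sum_le_sum fun d _ => ?_)
    refine (norm_sum_le _ _).trans (Finset.sum_le_sum fun e _ => ?_)
    rw [norm_mul, Complex.norm_real]
    exact mul_le_mul_of_nonneg_right (hβ e) (norm_nonneg _)
  have h2 : (∑ x ∈ S ×ˢ T, 1 * ‖G x.1 x.2‖) ^ 2 ≤
      (∑ x ∈ S ×ˢ T, (1 : ℝ) ^ 2) * ∑ x ∈ S ×ˢ T, ‖G x.1 x.2‖ ^ 2 :=
    Finset.sum_mul_sq_le_sq_mul_sq _ _ _
  have h3 : (∑ x ∈ S ×ˢ T, (1 : ℝ) ^ 2) = S.card * T.card := by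
    rw [one_pow, Finset.sum_const, Finset.card_product, nsmul_eq_mul, mul_one, Nat.cast_mul]
  have h4 : ∀ d : ℕ, ∑ e ∈ T, ‖G d e‖ ^ 2 ≤
      ∑ i ∈ J, ∑ i' ∈ J, ‖∑ e ∈ T, u d e i * (starRingEnd ℂ) (u d e i')‖ := by
    intro d
    have e1 : ((∑ e ∈ T, ‖G d e‖ ^ 2 : ℝ) : ℂ) =
        ∑ i ∈ J, ∑ i' ∈ J, ∑ e ∈ T, u d e i * (starRingEnd ℂ) (u d e i') := by
      have e2 : ∀ i ∈ J, ∑ i' ∈ J, ∑ e ∈ T, u d e i * (starRingEnd ℂ) (u d e i') =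
          ∑ e ∈ T, ∑ i' ∈ J, u d e i * (starRingEnd ℂ) (u d e i') :=
        fun i _ => Finset.sum_comm
      rw [Finset.sum_congr rfl e2, Finset.sum_comm, Complex.ofReal_sum]
      refine Finset.sum_congr rfl fun e _ => ?_
      rw [Complex.ofReal_pow, ← Complex.mul_conj', hG]
      simp only
      rw [map_sum, Finset.sum_mul_sum]
    have e3 : ∑ e ∈ T, ‖G d e‖ ^ 2 = ‖((∑ e ∈ T, ‖G d e‖ ^ 2 : ℝ) : ℂ)‖ := by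
      rw [Complex.norm_real, Real.norm_of_nonneg (Finset.sum_nonneg fun e _ => sq_nonneg _)]
    rw [e3, e1]
    refine (norm_sum_le _ _).trans (Finset.sum_le_sum fun i _ => ?_)
    exact norm_sum_le _ _
  calc ‖∑ d ∈ S, ∑ e ∈ T, (β e : ℂ) * ∑ i ∈ J, u d e i‖ ^ 2
      ≤ (∑ x ∈ S ×ˢ T, 1 * ‖G x.1 x.2‖) ^ 2 := pow_le_pow_left₀ (norm_nonneg _) h1 2
    _ ≤ (∑ x ∈ S ×ˢ T, (1 : ℝ) ^ 2) * ∑ x ∈ S ×ˢ T, ‖G x.1 x.2‖ ^ 2 := h2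
    _ = S.card * T.card * ∑ d ∈ S, ∑ e ∈ T, ‖G d e‖ ^ 2 := by rw [h3, Finset.sum_product]
    _ ≤ _ := mul_le_mul_of_nonneg_left (Finset.sum_le_sum fun d _ => h4 d) (by positivity)

end Pool.Agent.PT
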